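import Pool.Agent.Helper29.DS.Ds

/-!
# Row DK of Theorem D* (MP_5165fa): the elements of the other kind
-/

open Set BIC
open scoped Matroid

namespace BICS

universe u

namespace DKR

/-- the lower end and the direction of a grid edge -/
lemma grd_ncard {α : Type*} {S : Set α} {ends : α → Sym2 (ℕ × ℕ)} {x y n : ℕ}
    (hG : Grd S ends x y n n) : S.Finite ∧ S.ncard ≤ 2 * n ^ 2 := by
  classical
  have h : ∀ e ∈ S, ∃ a : (ℕ × ℕ) × Bool, a ∈ ((Finset.Ico x (x + n) ×ˢ Finset.Ico y (y + n)) ×ˢ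
      (Finset.univ : Finset Bool)) ∧
      ends e = s(a.1, if a.2 then (a.1.1 + 1, a.1.2) else (a.1.1, a.1.2 + 1)) := by
    intro e he
    obtain ⟨p, q, h1, h2, h3, h4⟩ := hG.mem e he
    obtain ⟨p1, p2, p3, p4⟩ := h3
    obtain ⟨q1, q2, q3, q4⟩ := h4
    rcases h2 with ⟨h2, h5 | h5⟩ | ⟨h2, h5 | h5⟩
    · refine ⟨(p, false), ?_, ?_⟩
      · simp only [Finset.mem_product, Finset.mem_Ico, Finset.mem_univ, and_true]
        exact ⟨⟨p1, p2⟩, p3, p4⟩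
      · rw [h1]
        have : q = (p.1, p.2 + 1) := Prod.ext h2.symm h5.symm
        simp [this]
    · refine ⟨(q, false), ?_, ?_⟩
      · simp only [Finset.mem_product, Finset.mem_Ico, Finset.mem_univ, and_true]
        exact ⟨⟨q1, q2⟩, q3, q4⟩
      · rw [h1, Sym2.eq_swap]
        have : p = (q.1, q.2 + 1) := Prod.ext h2 h5.symm
        simp [this]
    · refine ⟨(p, true), ?_, ?_⟩
      · simp only [Finset.mem_product, Finset.mem_Ico, Finset.mem_univ, and_true]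
        exact ⟨⟨p1, p2⟩, p3, p4⟩
      · rw [h1]
        have : q = (p.1 + 1, p.2) := Prod.ext h5.symm h2.symm
        simp [this]
    · refine ⟨(q, true), ?_, ?_⟩
      · simp only [Finset.mem_product, Finset.mem_Ico, Finset.mem_univ, and_true]
        exact ⟨⟨q1, q2⟩, q3, q4⟩
      · rw [h1, Sym2.eq_swap]
        have : p = (q.1 + 1, q.2) := Prod.ext h5.symm h2
        simp [this]
  choose! φ hφ1 hφ2 using h
  have hinj : InjOn φ S := by
    intro a ha b hb hab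
    refine hG.inj ha hb ?_
    rw [hφ2 a ha, hφ2 b hb, hab]
  have hmaps : MapsTo φ S (((Finset.Ico x (x + n) ×ˢ Finset.Ico y (y + n)) ×ˢ
      (Finset.univ : Finset Bool) : Finset ((ℕ × ℕ) × Bool)) : Set ((ℕ × ℕ) × Bool)) :=
    fun e he => Finset.mem_coe.2 (hφ1 e he)
  have hfin : S.Finite := Set.Finite.of_injOn hmaps hinj (Finset.finite_toSet _)
  refine ⟨hfin, ?_⟩
  have h1 := Set.ncard_le_ncard_of_injOn φ hmaps hinj (Finset.finite_toSet _)
  rw [Set.ncard_coe_finset] at h1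
  simp only [Finset.card_product, Nat.card_Ico, Finset.card_univ, Fintype.card_bool] at h1
  have e1 : x + n - x = n := by omega
  have e2 : y + n - y = n := by omega
  rw [e1, e2] at h1
  nlinarith

/-- the situation -/
structure Sit {α : Type u} (M : Matroid α) (n ρ : ℕ) (E₁ E₂ C₁ D₂ : Set α)
    (e₁ e₂ : α → Sym2 (ℕ × ℕ)) (x y x' y' : ℕ) : Prop where
  sub₁ : E₁ ⊆ M.E
  sub₂ : E₂ ⊆ M.E
  disj : Disjoint E₁ E₂
  c₁ : C₁ ⊆ M.E \ E₁
  d₂ : D₂ ⊆ M.E \ E₂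
  bic₁ : Bic (M ／ C₁) E₁ e₁
  grd₁ : Grd E₁ e₁ x y n n
  bic₂ : Bic (M✶ ／ D₂) E₂ e₂
  grd₂ : Grd E₂ e₂ x' y' n n
  rest : (M.E \ (E₁ ∪ E₂ ∪ C₁ ∪ D₂)).ncard ≤ ρ

lemma Sit.dual {α : Type u} {M : Matroid α} [M.Finite] {n ρ : ℕ} {E₁ E₂ C₁ D₂ : Set α}
    {e₁ e₂ : α → Sym2 (ℕ × ℕ)} {x y x' y' : ℕ} (h : Sit M n ρ E₁ E₂ C₁ D₂ e₁ e₂ x y x' y') :
    Sit M✶ n ρ E₂ E₁ D₂ C₁ e₂ e₁ x' y' x y where
  sub₁ := h.sub₂
  sub₂ := h.sub₁
  disj := h.disj.symm
  c₁ := h.d₂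
  d₂ := h.c₁
  bic₁ := h.bic₂
  grd₁ := h.grd₂
  bic₂ := by rw [Matroid.dual_dual]; exact h.bic₁
  grd₂ := h.grd₁
  rest := by
    have : M✶.E \ (E₂ ∪ E₁ ∪ D₂ ∪ C₁) = M.E \ (E₁ ∪ E₂ ∪ C₁ ∪ D₂) := by
      rw [Matroid.dual_ground]
      ext z
      simp only [mem_sdiff, mem_union, not_or]
      tauto
    rw [this]
    exact h.rest

/-- contraction of an element contracted for both minors -/
lemma Sit.contract {α : Type u} {M : Matroid α} [M.Finite] {n ρ : ℕ} {E₁ E₂ C₁ D₂ : Set α}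
    {e₁ e₂ : α → Sym2 (ℕ × ℕ)} {x y x' y' : ℕ} (h : Sit M n ρ E₁ E₂ C₁ D₂ e₁ e₂ x y x' y')
    {e : α} (he : e ∈ C₁) (heD : e ∉ D₂) (heE : e ∉ E₂) :
    Sit (M ／ {e}) n ρ E₁ E₂ (C₁ \ {e}) D₂ e₁ e₂ x y x' y' where
  sub₁ := by
    rw [Matroid.contract_ground]
    exact fun z hz => ⟨h.sub₁ hz, fun h' => (h.c₁ he).2 (h' ▸ hz)⟩
  sub₂ := by
    rw [Matroid.contract_ground]
    exact fun z hz => ⟨h.sub₂ hz, fun h' => heE (h' ▸ hz)⟩
  disj := h.disj
  c₁ := by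
    rw [Matroid.contract_ground]
    exact fun z hz => ⟨⟨(h.c₁ hz.1).1, hz.2⟩, (h.c₁ hz.1).2⟩
  d₂ := by
    rw [Matroid.contract_ground]
    exact fun z hz => ⟨⟨(h.d₂ hz).1, fun h' => heD (h' ▸ hz)⟩, (h.d₂ hz).2⟩
  bic₁ := by
    rw [Matroid.contract_contract, union_sdiff_self,
      union_eq_self_of_subset_left (singleton_subset_iff.2 he)]
    exact h.bic₁
  grd₁ := h.grd₁
  bic₂ := by
    have f1 : (M✶ ／ D₂).Finite := BQ.fin_contract (M := M✶) D₂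
    have f2 : (M✶ ／ D₂ ＼ {e}).Finite := BQ.fin_delete (M := M✶ ／ D₂) {e}
    have e1 : (M ／ {e})✶ ／ D₂ = M✶ ／ D₂ ＼ {e} := by
      rw [Matroid.dual_contract]
      exact (Matroid.contract_delete_comm M✶ (disjoint_singleton_right.2 heD)).symm
    rw [e1]
    have hsub : E₂ ⊆ (M✶ ／ D₂).E \ {e} := by
      rw [Matroid.contract_ground, Matroid.dual_ground]
      exact fun z hz => ⟨⟨h.sub₂ hz, fun h' => (h.d₂ h').2 hz⟩, fun h' => heE (h' ▸ hz)⟩
    exact Bic_of_rk h.bic₂ hsub (fun X hX => rk_delete (hX.trans hsub))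
  grd₂ := h.grd₂
  rest := by
    have : (M ／ {e}).E \ (E₁ ∪ E₂ ∪ (C₁ \ {e}) ∪ D₂) = M.E \ (E₁ ∪ E₂ ∪ C₁ ∪ D₂) := by
      rw [Matroid.contract_ground]
      ext z
      simp only [mem_sdiff, mem_union, mem_singleton_iff, not_or, not_and, not_not]
      constructor
      · rintro ⟨⟨h1, h2⟩, ⟨h3, h4⟩, h5⟩
        exact ⟨h1, ⟨h3, fun h' => h2 (h4 h')⟩, h5⟩
      · rintro ⟨h1, ⟨h3, h4⟩, h5⟩
        exact ⟨⟨h1, fun h' => h4 (h' ▸ he)⟩, ⟨h3, fun h' => absurd h' h4⟩, h5⟩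
    rw [this]
    exact h.rest

end DKR

open DKR WPP in
/-- **Row DK.** -/
theorem dkStmt_of (k : ℕ) (hDs : DsStmt.{u} k) (hBas : BasStmt.{u}) : DkStmt.{u} k := by
  rcases Nat.eq_zero_or_pos k with rfl | hk
  · exact ⟨0, fun n _ α M _ E₁ E₂ C₁ D₂ e₁ e₂ x y x' y' _ _ _ _ _ _ _ _ _ _ _ =>
      DSR.hum_zero M⟩
  obtain ⟨Λ₀, hDs⟩ := hDs 0
  obtain ⟨κ₀, hSP⟩ := thmSP.{u} k hk
  set K := κ₀ + Λ₀ with hKdef
  obtain ⟨s₀, hSP⟩ := hSP K
  refine ⟨K + 1 + s₀ + 2 + 8 * Λ₀, ?_⟩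
  intro n hn α M _ E₁ E₂ C₁ D₂ e₁ e₂ x y x' y' hE₁ hE₂ hE hC₁ hD₂ hB₁ hG₁ hB₂ hG₂ hρ hK
  set ρ := (M.E \ (E₁ ∪ E₂ ∪ C₁ ∪ D₂)).ncard with hρdef
  -- the induction
  have key : ∀ m : ℕ, ∀ {α : Type u} (M : Matroid α) [M.Finite] (E₁ E₂ C₁ D₂ : Set α)
      (e₁ e₂ : α → Sym2 (ℕ × ℕ)) (x y x' y' : ℕ), Sit M n ρ E₁ E₂ C₁ D₂ e₁ e₂ x y x' y' →
      M.E.ncard + C₁.ncard + D₂.ncard ≤ m → KGe M E₁ E₂ (K + 1) → HasUniformMinor M k := by
    intro m
    induction m with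
    | zero =>
      intro α M _ E₁ E₂ C₁ D₂ e₁ e₂ x y x' y' h hm hK
      have h1 : M.E.ncard = 0 := by omega
      rw [Set.ncard_eq_zero M.ground_finite] at h1
      obtain ⟨e₀, he₀, _⟩ := h.grd₁.surj (x, y) (x, y + 1) (Or.inl ⟨rfl, Or.inl rfl⟩)
        ⟨by simp only; omega, by simp only; omega, by simp only; omega, by simp only; omega⟩
        ⟨by simp only; omega, by simp only; omega, by simp only; omega, by simp only; omega⟩
      have := h.sub₁ he₀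
      rw [h1] at this
      exact absurd this (notMem_empty _)
    | succ m ih =>
      -- an element contracted for both
      have caseA : ∀ {α : Type u} (M : Matroid α) [M.Finite] (E₁ E₂ C₁ D₂ : Set α)
          (e₁ e₂ : α → Sym2 (ℕ × ℕ)) (x y x' y' : ℕ), Sit M n ρ E₁ E₂ C₁ D₂ e₁ e₂ x y x' y' →
          M.E.ncard + C₁.ncard + D₂.ncard ≤ m + 1 → KGe M E₁ E₂ (K + 1) →
          ∀ e ∈ C₁, e ∉ D₂ → e ∉ E₂ → HasUniformMinor M k := by
        intro α M _ E₁ E₂ C₁ D₂ e₁ e₂ x y x' y' h hm hK e he heD heE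
        have f1 : (M ／ {e}).Finite := BQ.fin_contract {e}
        have hmin : M ／ {e} ≤m M := by
          have := Matroid.contract_delete_isMinor M {e} ∅
          rwa [Matroid.delete_empty] at this
        have heM : e ∈ M.E := (h.c₁ he).1
        have h' := h.contract he heD heE
        have hK' : KGe (M ／ {e}) E₁ E₂ K := by
          refine BQ.kge_contract ?_ (by rw [ncard_singleton]; exact hK)
          rw [singleton_subset_iff]
          refine ⟨heM, ?_⟩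
          rintro (h1 | h1)
          · exact (h.c₁ he).2 h1
          · exact heE h1
        refine hum_mono hmin ?_
        by_cases hK2 : KGe (M ／ {e}) E₁ E₂ (K + 1)
        · refine ih (M ／ {e}) E₁ E₂ (C₁ \ {e}) D₂ e₁ e₂ x y x' y' h' ?_ hK2
          have c1 : (M ／ {e}).E.ncard + 1 ≤ M.E.ncard := by
            rw [Matroid.contract_ground, Set.ncard_sdiff_singleton_add_one heM M.ground_finite]
          have c2 : (C₁ \ {e}).ncard ≤ C₁.ncard :=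
            Set.ncard_le_ncard sdiff_subset (M.ground_finite.subset (h.c₁.trans sdiff_subset))
          omega
        · exact hSP n (by omega) n (by omega) (M ／ {e}) E₁ E₂ (C₁ \ {e}) D₂ h'.sub₁ h'.sub₂
            h'.disj h'.c₁ h'.d₂ (Grd.toPGrid (by omega) h'.bic₁ h'.grd₁)
            (Grd.toPGrid (by omega) h'.bic₂ h'.grd₂) (BQ.KGe.mono_n hK' (by omega)) hK2
      -- a dependent set of contracted elements
      have caseB : ∀ {α : Type u} (M : Matroid α) [M.Finite] (E₁ E₂ C₁ D₂ : Set α)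
          (e₁ e₂ : α → Sym2 (ℕ × ℕ)) (x y x' y' : ℕ), Sit M n ρ E₁ E₂ C₁ D₂ e₁ e₂ x y x' y' →
          M.E.ncard + C₁.ncard + D₂.ncard ≤ m + 1 → KGe M E₁ E₂ (K + 1) → C₁ ⊆ D₂ ∪ E₂ →
          ¬ M.Indep C₁ → HasUniformMinor M k := by
        intro α M _ E₁ E₂ C₁ D₂ e₁ e₂ x y x' y' h hm hK hCD hnI
        obtain ⟨C', hC', hCi, hCb, hCr, hCF⟩ := hBas M C₁ ∅ (h.c₁.trans sdiff_subset)
        have hne : C' ≠ C₁ := fun h' => hnI (h' ▸ hCi)
        have hlt : C'.ncard < C₁.ncard := Set.ncard_lt_ncard (hC'.ssubset_of_ne hne)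
          (M.ground_finite.subset (h.c₁.trans sdiff_subset))
        refine ih M E₁ E₂ C' D₂ e₁ e₂ x y x' y'
          ⟨h.sub₁, h.sub₂, h.disj, hC'.trans h.c₁, h.d₂, hCb _ _ h.bic₁, h.grd₁, h.bic₂, h.grd₂,
            ?_⟩ (by omega) hK
        have : M.E \ (E₁ ∪ E₂ ∪ C' ∪ D₂) = M.E \ (E₁ ∪ E₂ ∪ C₁ ∪ D₂) := by
          ext z
          simp only [mem_sdiff, mem_union, not_or]
          constructor
          · rintro ⟨h1, ⟨⟨h3, h4⟩, h5⟩, h6⟩
            refine ⟨h1, ⟨⟨h3, h4⟩, fun h' => ?_⟩, h6⟩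
            rcases hCD h' with h'' | h''
            · exact h6 h''
            · exact h4 h''
          · rintro ⟨h1, ⟨⟨h3, h4⟩, h5⟩, h6⟩
            exact ⟨h1, ⟨⟨h3, h4⟩, fun h' => h5 (hC' h')⟩, h6⟩
        rw [this]
        exact h.rest
      intro α M _ E₁ E₂ C₁ D₂ e₁ e₂ x y x' y' h hm hK
      have hKd : KGe M✶ E₂ E₁ (K + 1) := hK.dual h.sub₁
      have hmd : M✶.E.ncard + D₂.ncard + C₁.ncard ≤ m + 1 := by
        rw [Matroid.dual_ground]
        omega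
      by_cases hA : C₁ ⊆ D₂ ∪ E₂
      swap
      · obtain ⟨e, he, he2⟩ := not_subset.1 hA
        exact caseA M E₁ E₂ C₁ D₂ e₁ e₂ x y x' y' h hm hK e he (fun h' => he2 (Or.inl h'))
          (fun h' => he2 (Or.inr h'))
      by_cases hA' : D₂ ⊆ C₁ ∪ E₁
      swap
      · obtain ⟨e, he, he2⟩ := not_subset.1 hA'
        exact hum_dual (caseA M✶ E₂ E₁ D₂ C₁ e₂ e₁ x' y' x y h.dual hmd hKd e he
          (fun h' => he2 (Or.inl h')) (fun h' => he2 (Or.inr h')))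
      by_cases hI : M.Indep C₁
      swap
      · exact caseB M E₁ E₂ C₁ D₂ e₁ e₂ x y x' y' h hm hK hA hI
      by_cases hI' : M✶.Indep D₂
      swap
      · exact hum_dual (caseB M✶ E₂ E₁ D₂ C₁ e₂ e₁ x' y' x y h.dual hmd hKd hA' hI')
      -- the end
      have hC₁E : C₁ ⊆ M.E := h.c₁.trans sdiff_subset
      have hD₂E : D₂ ⊆ M.E := h.d₂.trans sdiff_subset
      have hc1 : C₁.ncard ≤ (M.E \ D₂).ncard := by
        have h1 := rk_indep hI
        have h2 := rk_indep hI'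
        have h3 := rk_dual hD₂E
        have h4 : rk M C₁ ≤ rk M M.E := rk_mono M hC₁E
        have h5 : rk M (M.E \ D₂) ≤ (M.E \ D₂).ncard :=
          rk_le_ncard M (M.ground_finite.subset sdiff_subset)
        omega
      have hc2 : (M.E \ D₂).ncard ≤ 4 * n ^ 2 + ρ := by
        have hsub : M.E \ D₂ ⊆ E₁ ∪ E₂ ∪ (M.E \ (E₁ ∪ E₂ ∪ C₁ ∪ D₂)) := by
          rintro z ⟨hz, hzD⟩
          by_cases h1 : z ∈ E₁
          · exact Or.inl (Or.inl h1)
          by_cases h2 : z ∈ E₂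
          · exact Or.inl (Or.inr h2)
          refine Or.inr ⟨hz, ?_⟩
          rintro (((h' | h') | h') | h')
          · exact h1 h'
          · exact h2 h'
          · rcases hA h' with h'' | h''
            · exact hzD h''
            · exact h2 h''
          · exact hzD h'
        have fE₁ := M.ground_finite.subset h.sub₁
        have fE₂ := M.ground_finite.subset h.sub₂
        have h1 := Set.ncard_le_ncard hsub ((fE₁.union fE₂).union
          (M.ground_finite.subset sdiff_subset))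
        have h2 := Set.ncard_union_le (E₁ ∪ E₂) (M.E \ (E₁ ∪ E₂ ∪ C₁ ∪ D₂))
        have h3 := Set.ncard_union_le E₁ E₂
        have h4 := (grd_ncard h.grd₁).2
        have h5 := (grd_ncard h.grd₂).2
        have h6 := h.rest
        omega
      have hc3 : (C₁ ∩ D₂ ∩ univ).ncard ≤ 4 * n ^ 2 + ρ := by
        refine le_trans (Set.ncard_le_ncard (fun z hz => hz.1.1) (M.ground_finite.subset hC₁E)) ?_
        exact hc1.trans hc2
      refine hDs n (by omega) M E₁ E₂ C₁ D₂ ∅ ∅ univ e₁ e₂ x y x' y' h.sub₁ h.sub₂ h.disj h.c₁ h.d₂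
        h.bic₁ h.grd₁ h.bic₂ h.grd₂ (fun z _ => Or.inr (mem_univ z)) ?_ ?_ ?_
        (BQ.KGe.mono_n hK (by omega))
      · rw [sdiff_empty]; omega
      · rw [sdiff_empty]; omega
      · have h1 : Λ₀ * (C₁ ∩ D₂ ∩ univ).ncard ≤ Λ₀ * (4 * n ^ 2 + ρ) := Nat.mul_le_mul_left _ hc3
        have h2 : 8 * Λ₀ * ρ ≤ n ^ 4 := le_trans (Nat.mul_le_mul_right _ (by omega)) hρ
        have h3 : 8 * Λ₀ * n ^ 2 ≤ n ^ 4 := by
          have h4 : 8 * Λ₀ ≤ n ^ 2 := by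
            have : n ≤ n ^ 2 := by nlinarith
            omega
          calc 8 * Λ₀ * n ^ 2 ≤ n ^ 2 * n ^ 2 := Nat.mul_le_mul_right _ h4
            _ = n ^ 4 := by ring
        nlinarith
  exact key _ M E₁ E₂ C₁ D₂ e₁ e₂ x y x' y'
    ⟨hE₁, hE₂, hE, hC₁, hD₂, hB₁, hG₁, hB₂, hG₂, le_refl _⟩ (le_refl _)
    (BQ.KGe.mono_n hK (by omega))

end BICS
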