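import Pool.Agent.Helper34.DS.Scat
import Pool.Agent.Helper53.DS.Ess
import Pool.Agent.Helper63.DS.AddBas
import Pool.Agent.Helper29.DS.Dk

/-!
# Theorem D* over plain grids (MP_5165fa), complete
-/

open Set BIC
open scoped Matroid

namespace BICS

universe u

/-- **Theorem D***, few elements contracted for the first and deleted for the second minor. -/
theorem dsFin (k : ℕ) : DsStmt.{u} k :=
  dsStmt_of k (fun hk s hs => scatStmt k s hk hs) essStmt.{u} addStmt.{u} basStmt.{u}

/-- **Theorem D***, few elements deleted for the first and contracted for the second minor. -/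
theorem dkFin (k : ℕ) : DkStmt.{u} k := dkStmt_of k (dsFin k) basStmt.{u}

end BICS
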