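import Pool.Agent.Helper29.DS.All

/-!
# Theorem DD over plain grids (MP_5165fa): the rank budgets of the two splitting classes may be
`n ^ 2 / Λ` (after helper57's page DD, over the rows of Theorem D*)
-/

open Set BIC
open scoped Matroid

namespace BICS

universe u

/-- Theorem DD over plain grids. -/
def DdStmt (k : ℕ) : Prop :=
  ∃ Λ : ℕ, ∀ n ≥ Λ, ∀ {α : Type u} (M : Matroid α) [M.Finite]
    (E₁ E₂ C₁ D₂ F G H : Set α) (e₁ e₂ : α → Sym2 (ℕ × ℕ)) (x y x' y' : ℕ),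
    E₁ ⊆ M.E → E₂ ⊆ M.E → Disjoint E₁ E₂ → C₁ ⊆ M.E \ E₁ → D₂ ⊆ M.E \ E₂ →
    Bic (M ／ C₁) E₁ e₁ → Grd E₁ e₁ x y n n → Bic (M✶ ／ D₂) E₂ e₂ → Grd E₂ e₂ x' y' n n →
    C₁ ∩ D₂ ⊆ F ∪ G ∪ H →
    Λ * rk (M ／ (C₁ \ F)) E₁ ≤ Λ * rk (M ／ C₁) E₁ + n ^ 2 →
    Λ * rk (M✶ ／ (D₂ \ G)) E₂ ≤ Λ * rk (M✶ ／ D₂) E₂ + n ^ 2 →
    Λ * (C₁ ∩ D₂ ∩ H).ncard ≤ n ^ 4 → KGe M E₁ E₂ Λ → HasUniformMinor M k

namespace DSR

/-- counting pairs of cells -/
lemma pair_count2 {α : Type*} (I J : Finset (ℕ × ℕ)) (Hc : Finset α)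
    (Bc Bc' : α → Finset (ℕ × ℕ)) (β : ℕ) (h1 : ∀ c ∈ Hc, (Bc c).card ≤ β)
    (h2 : ∀ c ∈ Hc, (Bc' c).card ≤ β) (h : β ^ 2 * Hc.card < I.card * J.card) :
    ∃ i ∈ I, ∃ j ∈ J, ∀ c ∈ Hc, ¬ (i ∈ Bc c ∧ j ∈ Bc' c) := by
  classical
  by_contra hcon
  push Not at hcon
  have h3 : I ×ˢ J ⊆ Hc.biUnion (fun c => Bc c ×ˢ Bc' c) := by
    rintro ⟨i, j⟩ hij
    rw [Finset.mem_product] at hij
    obtain ⟨c, hc, h4, h5⟩ := hcon i hij.1 j hij.2
    exact Finset.mem_biUnion.2 ⟨c, hc, Finset.mem_product.2 ⟨h4, h5⟩⟩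
  have h4 := Finset.card_le_card h3
  have h5 : (Hc.biUnion (fun c => Bc c ×ˢ Bc' c)).card ≤ Hc.card * (β * β) :=
    Finset.card_biUnion_le_card_mul _ _ _ (fun c hc => by
      rw [Finset.card_product]
      exact Nat.mul_le_mul (h1 c hc) (h2 c hc))
  rw [Finset.card_product] at h4
  nlinarith

/-- A basis of `F` for the cost seen by `E` has the same cost for every `X ⊆ E`. -/
lemma basis_cost {α : Type*} (M : Matroid α) [M.Finite] {C F E : Set α} (hC : M.Indep C)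
    (hF : F ⊆ C) (hE : E ⊆ M.E \ C) : ∃ B ⊆ F,
    rk (M ／ (C \ B)) E = rk (M ／ C) E + B.ncard ∧
    (∀ X ⊆ E, rk (M ／ (C \ F)) X ≤ rk (M ／ (C \ B)) X) := by
  classical
  have hCf : C.Finite := M.ground_finite.subset hC.subset_ground
  have hFf : F.Finite := hCf.subset hF
  let Ess : Set α → Prop := fun B => B ⊆ F ∧ rk M (E ∪ C) ≤ rk M (E ∪ (C \ B))
  have hE0 : Ess ∅ := ⟨empty_subset _, by simp⟩
  obtain ⟨B, hB, hBmax⟩ : ∃ B, Ess B ∧ ∀ c ∈ F, c ∉ B → ¬ Ess (insert c B) := by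
    by_contra hcon
    push Not at hcon
    have : ∀ n, ∃ B, Ess B ∧ n ≤ B.ncard := by
      intro n
      induction n with
      | zero => exact ⟨∅, hE0, Nat.zero_le _⟩
      | succ n ih =>
        obtain ⟨B, hB, hn⟩ := ih
        obtain ⟨c, hc, hcB, hE⟩ := hcon B hB
        refine ⟨_, hE, ?_⟩
        rw [Set.ncard_insert_of_notMem hcB (hFf.subset hB.1)]
        omega
    obtain ⟨B, hB, hn⟩ := this (F.ncard + 1)
    have := Set.ncard_le_ncard hB.1 hFf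
    omega
  obtain ⟨hBF, hBe⟩ := hB
  have hBC : B ⊆ C := hBF.trans hF
  have hBf : B.Finite := hFf.subset hBF
  refine ⟨B, hBF, ?_, ?_⟩
  · have e1 := ess_rk hC hE hBC
    have e2 := ess_rk hC hE (Z := ∅) (empty_subset _)
    rw [sdiff_empty, ncard_empty] at e2
    have h3 : rk M (E ∪ (C \ B)) ≤ rk M (E ∪ C) :=
      rk_mono M (union_subset_union_right _ sdiff_subset)
    omega
  · intro X hX
    have hXC : X ⊆ M.E \ C := hX.trans hE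
    have e1 := ess_rk hC hXC hBC
    have e2 := ess_rk hC hXC hF
    have hGf : (F \ B).Finite := hFf.subset sdiff_subset
    have h1 := ess_coloops (M := M) (W := X ∪ (C \ B)) hGf.toFinset (by
      intro c hc
      rw [Set.Finite.mem_toFinset] at hc
      obtain ⟨hcF, hcB⟩ := hc
      have h2 : rk M (E ∪ (C \ insert c B)) + 1 ≤ rk M (E ∪ (C \ B)) := by
        have h0 := hBmax c hcF hcB
        simp only [Ess] at h0
        push Not at h0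
        have := h0 (insert_subset hcF hBF)
        omega
      have h3 := rk_submod (M := M) (X ∪ (C \ B)) (E ∪ (C \ insert c B))
      have h4 : rk M ((X ∪ (C \ B)) \ {c}) ≤
          rk M ((X ∪ (C \ B)) ∩ (E ∪ (C \ insert c B))) := by
        apply rk_mono
        rintro x ⟨hx | hx, hxc⟩
        · exact ⟨Or.inl hx, Or.inl (hX hx)⟩
        · refine ⟨Or.inr hx, Or.inr ⟨hx.1, ?_⟩⟩
          rintro (h | h)
          · exact hxc h
          · exact hx.2 h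
      have h5 : rk M (E ∪ (C \ B)) ≤ rk M ((X ∪ (C \ B)) ∪ (E ∪ (C \ insert c B))) := by
        apply rk_mono
        rintro x (hx | hx)
        · exact Or.inr (Or.inl hx)
        · exact Or.inl (Or.inr hx)
      omega)
    rw [← Set.ncard_eq_toFinset_card _ hGf, Set.Finite.coe_toFinset] at h1
    have h2 : rk M (X ∪ (C \ F)) ≤ rk M ((X ∪ (C \ B)) \ (F \ B)) := by
      refine rk_mono M ?_
      rintro x (hx | ⟨hx, hxF⟩)
      · exact ⟨Or.inl hx, fun h => (hXC hx).2 (hF h.1)⟩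
      · exact ⟨Or.inr ⟨hx, fun h => hxF (hBF h)⟩, fun h => hxF h.1⟩
    have h4 := Set.ncard_sdiff_add_ncard_of_subset hBF hFf
    omega

/-- For the unions of few exceptional sets. -/
lemma bad_card {α : Type*} (B : Set α) (hB : B.Finite) (Bc : α → Finset (ℕ × ℕ)) (β : ℕ)
    (h : ∀ c, (Bc c).card ≤ β) :
    ∃ bad : Finset (ℕ × ℕ), bad.card ≤ B.ncard * β ∧ ∀ i, i ∉ bad → ∀ c ∈ B, i ∉ Bc c := by
  classical
  refine ⟨hB.toFinset.biUnion Bc, ?_, ?_⟩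
  · rw [Set.ncard_eq_toFinset_card B hB]
    exact Finset.card_biUnion_le_card_mul _ _ _ (fun c _ => h c)
  · intro i hi c hc hic
    exact hi (Finset.mem_biUnion.2 ⟨c, hB.mem_toFinset.2 hc, hic⟩)

end DSR

open DSR WPP in
/-- **Theorem DD** over plain grids. -/
theorem ddFin (k : ℕ) : DdStmt.{u} k := by
  classical
  rcases Nat.eq_zero_or_pos k with rfl | hk
  · exact ⟨0, fun n _ α M _ E₁ E₂ C₁ D₂ F G H e₁ e₂ x y x' y' _ _ _ _ _ _ _ _ _ _ _ _ _ _ =>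
      hum_zero M⟩
  have hEss : EssStmt.{u} := essStmt
  have hAdd : AddStmt.{u} := addStmt
  have hBas : BasStmt.{u} := basStmt
  obtain ⟨κ, hW⟩ := thmWpp.{u} k hk
  obtain ⟨n₀, hW⟩ := hW (2 * k)
  set t1 := κ + 32 * (κ + 1) ^ 2 + 1 with ht1
  set s := n₀ + 4 * (t1 + 1) + 1 with hs
  obtain ⟨w, o, o', β, hsw, ho, ho', hSc⟩ := scatStmt.{u} k s hk (by omega)
  set Λ := t1 + 32 * (t1 + 1) ^ 2 + 1 + 2 * β ^ 2 * (2 * w) ^ 4 + 1 + 3 * w +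
    4 * β * (2 * w) ^ 2 with hΛ
  refine ⟨Λ, ?_⟩
  intro n hn α M _ E₁ E₂ C₁ D₂ F G H e₁ e₂ x y x' y' hE₁ hE₂ hE hC₁ hD₂ hB₁ hG₁ hB₂ hG₂
    hFG hq1 hq2 hH hK
  have hC₁E : C₁ ⊆ M.E := hC₁.trans sdiff_subset
  have hD₂E : D₂ ⊆ M.E := hD₂.trans sdiff_subset
  obtain ⟨C', hC', hCi, hCb, hCr, hCF⟩ := hBas M C₁ F hC₁E
  obtain ⟨D', hD', hDi, hDb, hDr, hDG⟩ := hBas M✶ D₂ G (by exact hD₂E)
  have finC : ∀ A : Set α, (M ／ A).Finite := fun A => BQ.fin_contract A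
  have finD : ∀ A : Set α, (M✶ ／ A).Finite := fun A => BQ.fin_contract A
  set T := n / w - 1 with hTdef
  have hw : 0 < w := by omega
  have hn3 : 3 * w ≤ n := by omega
  have hdiv : 3 ≤ n / w := (Nat.le_div_iff_mul_le hw).2 hn3
  have hT : (T + 1) * w ≤ n := by
    have : T + 1 = n / w := by omega
    rw [this]
    exact Nat.div_mul_le_self n w
  have hnT : n ≤ 2 * w * T := by
    have h1 : n < (n / w + 1) * w := by
      have := Nat.lt_div_mul_add (a := n) hw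
      rw [add_mul, one_mul]
      exact this
    have h2 : n / w + 1 ≤ 2 * T := by omega
    calc n ≤ (n / w + 1) * w := h1.le
      _ ≤ (2 * T) * w := Nat.mul_le_mul_right _ h2
      _ = 2 * w * T := by ring
  have hTpos : 0 < T := by omega
  have hC'E : C' ⊆ M.E \ E₁ := hC'.trans hC₁
  have hD'E : D' ⊆ M.E \ E₂ := hD'.trans hD₂
  have hE₁C : E₁ ⊆ M.E \ C₁ := fun z hz => ⟨hE₁ hz, fun h => (hC₁ h).2 hz⟩
  have hE₂D : E₂ ⊆ M.E \ D₂ := fun z hz => ⟨hE₂ hz, fun h => (hD₂ h).2 hz⟩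
  have hE₁C' : E₁ ⊆ M.E \ C' := fun z hz => ⟨hE₁ hz, fun h => (hC'E h).2 hz⟩
  have hE₂D' : E₂ ⊆ M✶.E \ D' := fun z hz => ⟨hE₂ hz, fun h => (hD'E h).2 hz⟩
  have hcut : ∀ A B : Set α, A \ (B ∩ A) = A \ B := by
    intro A B
    ext z
    simp only [mem_sdiff, mem_inter_iff]
    tauto
  -- bases of the two splitting classes
  obtain ⟨B₁, hB₁F, hB₁r, hB₁X⟩ := basis_cost M (C := C') (F := F ∩ C') (E := E₁) hCi
    inter_subset_right hE₁C'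
  obtain ⟨B₂, hB₂G, hB₂r, hB₂X⟩ := basis_cost M✶ (C := D') (F := G ∩ D') (E := E₂) hDi
    inter_subset_right hE₂D'
  rw [hcut] at hB₁X hB₂X
  have hB₁f : B₁.Finite :=
    M.ground_finite.subset (fun z hz => hC₁E (hC' (hB₁F hz).2))
  have hB₂f : B₂.Finite :=
    M.ground_finite.subset (fun z hz => hD₂E (hD' (hB₂G hz).2))
  have hB₁c : Λ * B₁.ncard ≤ n ^ 2 := by
    have h1 := hCF E₁ hE₁C
    have h2 := hCr E₁ hE₁C
    have h3 : rk (M ／ (C' \ B₁)) E₁ ≤ rk (M ／ (C' \ F)) E₁ :=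
      Quo.le (quo_mono (M := M) (A := C' \ F) (B := C' \ B₁)
        (sdiff_subset_sdiff_right (fun z hz => (hB₁F hz).1))
        (sdiff_subset.trans (hC'.trans hC₁E))
        (fun z hz => ⟨hE₁ hz, fun h => (hC'E h.1).2 hz⟩)) (subset_refl _)
    have h4 : rk (M ／ C₁) E₁ + B₁.ncard ≤ rk (M ／ (C₁ \ F)) E₁ := by omega
    have h5 := Nat.mul_le_mul_left Λ h4
    rw [mul_add] at h5
    omega
  have hB₂c : Λ * B₂.ncard ≤ n ^ 2 := by
    have h1 := hDG E₂ hE₂D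
    have h2 := hDr E₂ hE₂D
    have h3 : rk (M✶ ／ (D' \ B₂)) E₂ ≤ rk (M✶ ／ (D' \ G)) E₂ :=
      Quo.le (quo_mono (M := M✶) (A := D' \ G) (B := D' \ B₂)
        (sdiff_subset_sdiff_right (fun z hz => (hB₂G hz).1))
        (by exact sdiff_subset.trans (hD'.trans hD₂E))
        (fun z hz => ⟨hE₂ hz, fun h => (hD'E h.1).2 hz⟩)) (subset_refl _)
    have h4 : rk (M✶ ／ D₂) E₂ + B₂.ncard ≤ rk (M✶ ／ (D₂ \ G)) E₂ := by omega
    have h5 := Nat.mul_le_mul_left Λ h4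
    rw [mul_add] at h5
    omega
  -- the exceptional tiles
  set H' := H ∩ (C' ∩ D') with hH'
  have hH'f : H'.Finite := M.ground_finite.subset (fun z hz => hC₁E (hC' hz.2.1))
  have hH'c : H'.ncard ≤ (C₁ ∩ D₂ ∩ H).ncard := by
    refine Set.ncard_le_ncard ?_ (M.ground_finite.subset (fun z hz => hC₁E hz.1.1))
    exact fun z hz => ⟨⟨hC' hz.2.1, hD' hz.2.2⟩, hz.1⟩
  rcases side hEss hk hSc M (H := H') hE₁ hC'E hCi (hCb _ _ hB₁) hG₁ hT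
    (fun z hz => hz.2.1) with hU | ⟨Bc, hBc, hi⟩
  · exact hU
  rcases side hEss hk hSc M✶ (H := H') (by exact hE₂) (by exact hD'E) hDi (hDb _ _ hB₂) hG₂ hT
    (fun z hz => hz.2.2) with hU | ⟨Bc', hBc', hj⟩
  · exact hum_dual hU
  rcases side hEss hk hSc M (H := B₁) hE₁ hC'E hCi (hCb _ _ hB₁) hG₁ hT
    (fun z hz => (hB₁F hz).2) with hU | ⟨Bf, hBf, hfi⟩
  · exact hU
  rcases side hEss hk hSc M✶ (H := B₂) (by exact hE₂) (by exact hD'E) hDi (hDb _ _ hB₂) hG₂ hT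
    (fun z hz => (hB₂G hz).2) with hU | ⟨Bg, hBg, hgj⟩
  · exact hum_dual hU
  obtain ⟨bad₁, hbad₁, hgood₁⟩ := bad_card B₁ hB₁f Bf β (fun c => (hBf c).2)
  obtain ⟨bad₂, hbad₂, hgood₂⟩ := bad_card B₂ hB₂f Bg β (fun c => (hBg c).2)
  have hbig : ∀ b c : ℕ, Λ * c ≤ n ^ 2 → b ≤ c * β → 4 * b ≤ T * T := by
    intro b c h1 h2
    have h3 : n ^ 2 ≤ (2 * w) ^ 2 * (T * T) := by
      calc n ^ 2 ≤ (2 * w * T) ^ 2 := Nat.pow_le_pow_left hnT 2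
        _ = (2 * w) ^ 2 * (T * T) := by ring
    have h4 : 4 * β * (2 * w) ^ 2 * c ≤ (2 * w) ^ 2 * (T * T) := by
      refine le_trans (le_trans (Nat.mul_le_mul_right _ ?_) h1) h3
      omega
    have h5 : 0 < (2 * w) ^ 2 := by positivity
    have h6 : (2 * w) ^ 2 * (4 * (c * β)) ≤ (2 * w) ^ 2 * (T * T) := by
      calc (2 * w) ^ 2 * (4 * (c * β)) = 4 * β * (2 * w) ^ 2 * c := by ring
        _ ≤ _ := h4
    have h7 := Nat.le_of_mul_le_mul_left h6 h5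
    omega
  have hb1 := hbig _ _ hB₁c hbad₁
  have hb2 := hbig _ _ hB₂c hbad₂
  have hcT : (cells T).card = T * T := by simp [cells]
  have hI₁ : 3 * (T * T) ≤ 4 * (cells T \ bad₁).card := by
    have := Finset.le_card_sdiff bad₁ (cells T)
    omega
  have hI₂ : 3 * (T * T) ≤ 4 * (cells T \ bad₂).card := by
    have := Finset.le_card_sdiff bad₂ (cells T)
    omega
  -- the pair of cells
  have hcount : β ^ 2 * hH'f.toFinset.card < (cells T \ bad₁).card * (cells T \ bad₂).card := by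
    have hc1 : hH'f.toFinset.card = H'.ncard := (Set.ncard_eq_toFinset_card H' hH'f).symm
    rw [hc1]
    have h0 : (T * T) ^ 2 ≤ 2 * ((cells T \ bad₁).card * (cells T \ bad₂).card) := by
      have := Nat.mul_le_mul hI₁ hI₂
      nlinarith
    by_contra hcon
    push Not at hcon
    have h1 : (2 * β ^ 2 * (2 * w) ^ 4 + 1) * H'.ncard ≤ n ^ 4 := by
      refine le_trans (le_trans (Nat.mul_le_mul_left _ hH'c) (Nat.mul_le_mul_right _ ?_)) hH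
      omega
    have h2 : n ^ 4 ≤ (2 * w) ^ 4 * (T * T) ^ 2 := by
      calc n ^ 4 ≤ (2 * w * T) ^ 4 := Nat.pow_le_pow_left hnT 4
        _ = (2 * w) ^ 4 * (T * T) ^ 2 := by ring
    have h3 : (2 * w) ^ 4 * (T * T) ^ 2 ≤ (2 * w) ^ 4 * (2 * (β ^ 2 * H'.ncard)) :=
      Nat.mul_le_mul_left _ (h0.trans (Nat.mul_le_mul_left _ hcon))
    have h4 : H'.ncard ≤ 0 := by nlinarith
    have h5 : H'.ncard = 0 := by omega
    rw [h5, mul_zero] at hcon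
    have h6 : 0 < (T * T) ^ 2 := by positivity
    omega
  obtain ⟨i, hiI, j, hjI, hij⟩ := pair_count2 (cells T \ bad₁) (cells T \ bad₂) hH'f.toFinset
    Bc Bc' β (fun c _ => (hBc c).2) (fun c _ => (hBc' c).2) hcount
  rw [Finset.mem_sdiff] at hiI hjI
  obtain ⟨hiI, hi1⟩ := hiI
  obtain ⟨hjI, hj1⟩ := hjI
  have hij' : ∀ c ∈ H', ¬ (i ∈ Bc c ∧ j ∈ Bc' c) := fun c hc => hij c (hH'f.mem_toFinset.2 hc)
  specialize hi i hiI
  specialize hj j hjI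
  specialize hfi i hiI
  specialize hgj j hjI
  have ef : {c | c ∈ B₁ ∧ i ∉ Bf c} = B₁ := by
    ext c
    exact ⟨fun h => h.1, fun h => ⟨h, hgood₁ i hi1 c h⟩⟩
  have eg : {c | c ∈ B₂ ∧ j ∉ Bg c} = B₂ := by
    ext c
    exact ⟨fun h => h.1, fun h => ⟨h, hgood₂ j hj1 c h⟩⟩
  rw [ef] at hfi
  rw [eg] at hgj
  have hr₁ : tl x y w o o' s i ⊆ rect x y n n := tl_sub hiI ho ho' hT
  have hr₂ : tl x' y' w o o' s j ⊆ rect x' y' n n := tl_sub hjI ho ho' hT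
  set X := ins E₁ e₁ (tl x y w o o' s i) with hX
  set Y := ins E₂ e₂ (tl x' y' w o o' s j) with hY
  have hXE₁ : X ⊆ E₁ := fun z hz => hz.1
  have hYE₂ : Y ⊆ E₂ := fun z hz => hz.1
  have hXE : X ⊆ M.E := hXE₁.trans hE₁
  have hYE : Y ⊆ M.E := hYE₂.trans hE₂
  -- defects
  have d1 : rk (M ／ (C' \ (F ∪ {c | c ∈ H' ∧ i ∉ Bc c}))) X ≤ rk (M ／ C') X + 2 * k := by
    have h1 := hAdd M C' F {c | c ∈ H' ∧ i ∉ Bc c} X hCi
      (fun z hz => ⟨hXE hz, fun h => (hC'E h).2 (hXE₁ hz)⟩)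
    have h2 := hB₁X X hXE₁
    omega
  have d2 : rk (M✶ ／ (D' \ (G ∪ {c | c ∈ H' ∧ j ∉ Bc' c}))) Y ≤ rk (M✶ ／ D') Y + 2 * k := by
    have h1 := hAdd M✶ D' G {c | c ∈ H' ∧ j ∉ Bc' c} Y hDi
      (fun z hz => ⟨hYE hz, fun h => (hD'E h).2 (hYE₂ hz)⟩)
    have h2 := hB₂X Y hYE₂
    omega
  -- connectivity
  have k1 : KGe M X E₂ (t1 + 1) :=
    BQ.kge_blk hC₁ hE₁ hE hB₁ hG₁ hr₁ (by omega) (BQ.KGe.mono_n hK (by omega))
  have k2 : KGe M✶ Y X (κ + 1) := BQ.kge_blk (M := M✶) (by exact hD₂) (by exact hE₂)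
    (hE.symm.mono_right hXE₁) hB₂ hG₂ hr₂ (by omega) (BQ.KGe.mono_n (k1.dual hXE) (by omega))
  have k3 : KGe M X Y κ := by
    have := k2.dual (by exact hYE)
    rw [Matroid.dual_dual] at this
    exact BQ.KGe.mono_n this (by omega)
  refine hW s (by omega) M X Y C' D' (F ∪ {c | c ∈ H' ∧ i ∉ Bc c})
    (G ∪ {c | c ∈ H' ∧ j ∉ Bc' c}) e₁ e₂ _ _ _ _ hXE hYE
    ((hE.mono_left hXE₁).mono_right hYE₂)
    (fun z hz => ⟨(hC'E hz).1, fun h => (hC'E hz).2 (hXE₁ h)⟩)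
    (fun z hz => ⟨(hD'E hz).1, fun h => (hD'E hz).2 (hYE₂ h)⟩)
    (Bic_sub (hCb _ _ hB₁) hXE₁) (Grd_sub hG₁ hr₁) (Bic_sub (hDb _ _ hB₂) hYE₂)
    (Grd_sub hG₂ hr₂) ?_ d1 d2 k3
  rintro z ⟨hz1, hz2⟩
  rcases hFG ⟨hC' hz1, hD' hz2⟩ with (h | h) | h
  · exact Or.inl (Or.inl h)
  · exact Or.inr (Or.inl h)
  · have hzH : z ∈ H' := ⟨h, hz1, hz2⟩
    by_cases hzi : i ∈ Bc z
    · exact Or.inr (Or.inr ⟨hzH, fun hzj => hij' z hzH ⟨hzi, hzj⟩⟩)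
    · exact Or.inl (Or.inr ⟨hzH, hzi⟩)

end BICS
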