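import Pool.Agent.Helper47.DS.Defs

/-!
# Row DS of Theorem D* (MP_5165fa): localisation and counting
-/

open Set BIC
open scoped Matroid

namespace BICS

universe u

namespace DSR

/-- counting pairs of cells -/
lemma pair_count {α : Type*} (I : Finset (ℕ × ℕ)) (Hc : Finset α)
    (Bc Bc' : α → Finset (ℕ × ℕ)) (β : ℕ) (h1 : ∀ c ∈ Hc, (Bc c).card ≤ β)
    (h2 : ∀ c ∈ Hc, (Bc' c).card ≤ β) (h : β ^ 2 * Hc.card < I.card ^ 2) :
    ∃ i ∈ I, ∃ j ∈ I, ∀ c ∈ Hc, ¬ (i ∈ Bc c ∧ j ∈ Bc' c) := by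
  classical
  by_contra hcon
  push Not at hcon
  have h3 : I ×ˢ I ⊆ Hc.biUnion (fun c => Bc c ×ˢ Bc' c) := by
    rintro ⟨i, j⟩ hij
    rw [Finset.mem_product] at hij
    obtain ⟨c, hc, h4, h5⟩ := hcon i hij.1 j hij.2
    exact Finset.mem_biUnion.2 ⟨c, hc, Finset.mem_product.2 ⟨h4, h5⟩⟩
  have h4 := Finset.card_le_card h3
  have h5 : (Hc.biUnion (fun c => Bc c ×ˢ Bc' c)).card ≤ Hc.card * (β * β) :=
    Finset.card_biUnion_le_card_mul _ _ _ (fun c hc => by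
      rw [Finset.card_product]
      exact Nat.mul_le_mul (h1 c hc) (h2 c hc))
  rw [Finset.card_product] at h4
  nlinarith

lemma hum_zero {α : Type*} (M : Matroid α) : HasUniformMinor M 0 := by
  refine ⟨M ＼ M.E, by simpa using Matroid.contract_delete_isMinor M ∅ M.E, ?_, ?_⟩
  · simp
  · intro B
    have hE : (M ＼ M.E).E = ∅ := by simp
    constructor
    · intro h
      have := h.subset_ground
      rw [hE] at this ⊢
      have hB : B = ∅ := subset_empty_iff.1 this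
      simp [hB]
    · rintro ⟨h, -⟩
      rw [hE] at h
      have hB : B = ∅ := subset_empty_iff.1 h
      obtain ⟨B', hB'⟩ := (M ＼ M.E).exists_isBase
      have := hB'.subset_ground
      rw [hE] at this
      rw [hB, ← subset_empty_iff.1 this]
      exact hB'

lemma tl_sub {x y w o o' s T n : ℕ} {c : ℕ × ℕ} (hc : c ∈ cells T) (ho : o + s ≤ 2 * w)
    (ho' : o' + s ≤ 2 * w) (hT : (T + 1) * w ≤ n) : tl x y w o o' s c ⊆ rect x y n n := by
  simp only [cells, Finset.mem_product, Finset.mem_range] at hc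
  obtain ⟨h1, h2⟩ := hc
  have e1 : (c.1 + 2) * w ≤ (T + 1) * w := Nat.mul_le_mul_right _ (by omega)
  have e2 : (c.2 + 2) * w ≤ (T + 1) * w := Nat.mul_le_mul_right _ (by omega)
  rw [add_mul] at e1 e2
  exact rect_sub (by omega) (by omega) (by omega) (by omega)

open WPP in
/-- one side -/
lemma side (hEss : EssStmt.{u}) {k s w o o' β : ℕ} (hk : 1 ≤ k)
    (hSc : ∀ {α : Type u} (L N : Matroid α) [L.Finite] [N.Finite] (S : Set α)
      (ends : α → Sym2 (ℕ × ℕ)) (x y m T : ℕ), S ⊆ L.E → Bic N S ends → Grd S ends x y m m →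
      Quo L N S → (T + 1) * w ≤ m → rk L S ≤ rk N S + k →
      (∀ A ⊆ cells T, A.card ≤ β →
        rk N (⋃ c ∈ cells T \ A, ins S ends (tl x y w o o' s c)) + k ≤
          rk L (⋃ c ∈ cells T \ A, ins S ends (tl x y w o o' s c))) →
      HasUniformMinor L k)
    {α : Type u} (M : Matroid α) [M.Finite] {E C H : Set α} {ends : α → Sym2 (ℕ × ℕ)}
    {x y n T : ℕ} (hE : E ⊆ M.E) (hC : C ⊆ M.E \ E) (hI : M.Indep C)
    (hB : Bic (M ／ C) E ends) (hG : Grd E ends x y n n) (hT : (T + 1) * w ≤ n) (hH : H ⊆ C) :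
    HasUniformMinor M k ∨ ∃ Bc : α → Finset (ℕ × ℕ), (∀ c, Bc c ⊆ cells T ∧ (Bc c).card ≤ β) ∧
      ∀ i ∈ cells T, rk (M ／ (C \ {c | c ∈ H ∧ i ∉ Bc c})) (ins E ends (tl x y w o o' s i)) + 1 ≤
        rk (M ／ C) (ins E ends (tl x y w o o' s i)) + k := by
  have hsub : ∀ W, ins E ends W ⊆ E := fun W z hz => hz.1
  rcases hEss M C H hI hH k β hk (cells T) (fun i => ins E ends (tl x y w o o' s i))
    (fun i _ => (hsub _).trans (fun z hz => ⟨hE hz, fun h => (hC h).2 hz⟩)) with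
    ⟨K, hK, hKc, hA⟩ | h
  · left
    have f1 : (M ／ (C \ K)).Finite := BQ.fin_contract _
    have f2 : (M ／ C).Finite := BQ.fin_contract _
    have hCE : C ⊆ M.E := hC.trans sdiff_subset
    have hKf : K.Finite := M.ground_finite.subset ((hK.trans hH).trans hCE)
    have hmin : M ／ (C \ K) ≤m M := by
      have := Matroid.contract_delete_isMinor M (C \ K) ∅
      rwa [Matroid.delete_empty] at this
    refine hum_mono hmin (hSc (M ／ (C \ K)) (M ／ C) E ends x y n T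
      (fun z hz => ⟨hE hz, fun h => (hC h.1).2 hz⟩) hB hG
      (quo_mono sdiff_subset hCE (fun z hz => ⟨hE hz, fun h => (hC h).2 hz⟩)) hT ?_ hA)
    have h1 := defect_add (M := M) (E := E) (C := C) (G := ∅) hE hC hKf
    rw [empty_union, sdiff_empty, hKc] at h1
    exact h1
  · exact Or.inr h

end DSR

open DSR WPP in
/-- **Row DS.** -/
theorem dsStmt_of (k : ℕ) (hSc : 1 ≤ k → ∀ s, 1 ≤ s → ScatStmt.{u} k s) (hEss : EssStmt.{u})
    (hAdd : AddStmt.{u}) (hBas : BasStmt.{u}) : DsStmt.{u} k := by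
  intro q
  rcases Nat.eq_zero_or_pos k with rfl | hk
  · exact ⟨0, fun n _ α M _ E₁ E₂ C₁ D₂ F G H e₁ e₂ x y x' y' _ _ _ _ _ _ _ _ _ _ _ _ _ _ =>
      hum_zero M⟩
  obtain ⟨κ, hW⟩ := thmWpp.{u} k hk
  obtain ⟨n₀, hW⟩ := hW (q + k)
  set t1 := κ + 32 * (κ + 1) ^ 2 + 1 with ht1
  set s := n₀ + 4 * (t1 + 1) + 1 with hs
  obtain ⟨w, o, o', β, hsw, ho, ho', hSc⟩ := hSc hk s (by omega)
  refine ⟨t1 + 32 * (t1 + 1) ^ 2 + 1 + β ^ 2 * (2 * w) ^ 4 + 1 + 3 * w, ?_⟩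
  intro n hn α M _ E₁ E₂ C₁ D₂ F G H e₁ e₂ x y x' y' hE₁ hE₂ hE hC₁ hD₂ hB₁ hG₁ hB₂ hG₂
    hFG hq1 hq2 hH hK
  have hC₁E : C₁ ⊆ M.E := hC₁.trans sdiff_subset
  have hD₂E : D₂ ⊆ M.E := hD₂.trans sdiff_subset
  obtain ⟨C', hC', hCi, hCb, hCr, hCF⟩ := hBas M C₁ F hC₁E
  obtain ⟨D', hD', hDi, hDb, hDr, hDG⟩ := hBas M✶ D₂ G (by exact hD₂E)
  have finC : ∀ A : Set α, (M ／ A).Finite := fun A => BQ.fin_contract A
  have finD : ∀ A : Set α, (M✶ ／ A).Finite := fun A => BQ.fin_contract A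
  set T := n / w - 1 with hTdef
  have hw : 0 < w := by omega
  have hn3 : 3 * w ≤ n := by omega
  have hdiv : 3 ≤ n / w := (Nat.le_div_iff_mul_le hw).2 hn3
  have hT : (T + 1) * w ≤ n := by
    have : T + 1 = n / w := by omega
    rw [this]
    exact Nat.div_mul_le_self n w
  have hnT : n ≤ 2 * w * T := by
    have h1 : n < (n / w + 1) * w := by
      have := Nat.lt_div_mul_add (a := n) hw
      rw [add_mul, one_mul]
      exact this
    have h2 : n / w + 1 ≤ 2 * T := by omega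
    calc n ≤ (n / w + 1) * w := h1.le
      _ ≤ (2 * T) * w := Nat.mul_le_mul_right _ h2
      _ = 2 * w * T := by ring
  set H' := H ∩ (C' ∩ D') with hH'
  have hH'f : H'.Finite := M.ground_finite.subset (fun z hz => hC₁E (hC' hz.2.1))
  have hH'c : H'.ncard ≤ (C₁ ∩ D₂ ∩ H).ncard := by
    refine Set.ncard_le_ncard ?_ (M.ground_finite.subset (fun z hz => hC₁E hz.1.1))
    exact fun z hz => ⟨⟨hC' hz.2.1, hD' hz.2.2⟩, hz.1⟩
  have hC'E : C' ⊆ M.E \ E₁ := hC'.trans hC₁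
  have hD'E : D' ⊆ M.E \ E₂ := hD'.trans hD₂
  rcases side hEss hk hSc M (H := H') hE₁ hC'E hCi (hCb _ _ hB₁) hG₁ hT
    (fun z hz => hz.2.1) with hU | ⟨Bc, hBc, hi⟩
  · exact hU
  rcases side hEss hk hSc M✶ (H := H') (by exact hE₂) (by exact hD'E) hDi (hDb _ _ hB₂) hG₂ hT
    (fun z hz => hz.2.2) with hU | ⟨Bc', hBc', hj⟩
  · exact hum_dual hU
  -- the pair of cells
  have hcount : β ^ 2 * hH'f.toFinset.card < (cells T).card ^ 2 := by
    have hc1 : hH'f.toFinset.card = H'.ncard := (Set.ncard_eq_toFinset_card H' hH'f).symm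
    have hc2 : (cells T).card = T * T := by simp [cells]
    rw [hc1, hc2]
    by_contra hcon
    push Not at hcon
    have h1 : (β ^ 2 * (2 * w) ^ 4 + 1) * H'.ncard ≤ n ^ 4 := by
      refine le_trans (le_trans (Nat.mul_le_mul_left _ hH'c) (Nat.mul_le_mul_right _ ?_)) hH
      omega
    have h2 : n ^ 4 ≤ (2 * w) ^ 4 * (T * T) ^ 2 := by
      calc n ^ 4 ≤ (2 * w * T) ^ 4 := Nat.pow_le_pow_left hnT 4
        _ = (2 * w) ^ 4 * (T * T) ^ 2 := by ring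
    have h3 : (2 * w) ^ 4 * (T * T) ^ 2 ≤ (2 * w) ^ 4 * (β ^ 2 * H'.ncard) :=
      Nat.mul_le_mul_left _ hcon
    have h4 : H'.ncard ≤ 0 := by nlinarith
    have h5 : H'.ncard = 0 := by omega
    rw [h5, mul_zero] at hcon
    have h6 : 0 < (T * T) ^ 2 := by
      have : 0 < T := by omega
      positivity
    omega
  obtain ⟨i, hiI, j, hjI, hij⟩ := pair_count (cells T) hH'f.toFinset Bc Bc' β
    (fun c _ => (hBc c).2) (fun c _ => (hBc' c).2) hcount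
  have hij' : ∀ c ∈ H', ¬ (i ∈ Bc c ∧ j ∈ Bc' c) := fun c hc => hij c (hH'f.mem_toFinset.2 hc)
  specialize hi i hiI
  specialize hj j hjI
  have hr₁ : tl x y w o o' s i ⊆ rect x y n n := tl_sub hiI ho ho' hT
  have hr₂ : tl x' y' w o o' s j ⊆ rect x' y' n n := tl_sub hjI ho ho' hT
  set X := ins E₁ e₁ (tl x y w o o' s i) with hX
  set Y := ins E₂ e₂ (tl x' y' w o o' s j) with hY
  have hXE₁ : X ⊆ E₁ := fun z hz => hz.1
  have hYE₂ : Y ⊆ E₂ := fun z hz => hz.1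
  have hXE : X ⊆ M.E := hXE₁.trans hE₁
  have hYE : Y ⊆ M.E := hYE₂.trans hE₂
  have hXC : X ⊆ M.E \ C₁ := fun z hz => ⟨hXE hz, fun h => (hC₁ h).2 (hXE₁ hz)⟩
  have hYD : Y ⊆ M.E \ D₂ := fun z hz => ⟨hYE hz, fun h => (hD₂ h).2 (hYE₂ hz)⟩
  have hE₁C : E₁ ⊆ M.E \ C₁ := fun z hz => ⟨hE₁ hz, fun h => (hC₁ h).2 hz⟩
  have hE₂D : E₂ ⊆ M✶.E \ D₂ := fun z hz => ⟨hE₂ hz, fun h => (hD₂ h).2 hz⟩
  -- defects
  have d1 : rk (M ／ (C' \ (F ∪ {c | c ∈ H' ∧ i ∉ Bc c}))) X ≤ rk (M ／ C') X + (q + k) := by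
    have h1 := hAdd M C' F {c | c ∈ H' ∧ i ∉ Bc c} X hCi
      (fun z hz => ⟨hXE hz, fun h => (hC'E h).2 (hXE₁ hz)⟩)
    have h2 := hCF X hXC
    have h3 := hCr X hXC
    have h4 := quo_mono (M := M) (A := C₁ \ F) (B := C₁) sdiff_subset hC₁E hE₁C X E₁ hXE₁
      (subset_refl _)
    omega
  have d2 : rk (M✶ ／ (D' \ (G ∪ {c | c ∈ H' ∧ j ∉ Bc' c}))) Y ≤ rk (M✶ ／ D') Y + (q + k) := by
    have h1 := hAdd M✶ D' G {c | c ∈ H' ∧ j ∉ Bc' c} Y hDi
      (fun z hz => ⟨hYE hz, fun h => (hD'E h).2 (hYE₂ hz)⟩)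
    have h2 := hDG Y hYD
    have h3 := hDr Y hYD
    have h4 := quo_mono (M := M✶) (A := D₂ \ G) (B := D₂) sdiff_subset (by exact hD₂E) hE₂D Y E₂
      hYE₂ (subset_refl _)
    omega
  -- connectivity
  have k1 : KGe M X E₂ (t1 + 1) :=
    BQ.kge_blk hC₁ hE₁ hE hB₁ hG₁ hr₁ (by omega) (BQ.KGe.mono_n hK (by omega))
  have k2 : KGe M✶ Y X (κ + 1) := BQ.kge_blk (M := M✶) (by exact hD₂) (by exact hE₂)
    (hE.symm.mono_right hXE₁) hB₂ hG₂ hr₂ (by omega) (BQ.KGe.mono_n (k1.dual hXE) (by omega))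
  have k3 : KGe M X Y κ := by
    have := k2.dual (by exact hYE)
    rw [Matroid.dual_dual] at this
    exact BQ.KGe.mono_n this (by omega)
  refine hW s (by omega) M X Y C' D' (F ∪ {c | c ∈ H' ∧ i ∉ Bc c})
    (G ∪ {c | c ∈ H' ∧ j ∉ Bc' c}) e₁ e₂ _ _ _ _ hXE hYE
    ((hE.mono_left hXE₁).mono_right hYE₂)
    (fun z hz => ⟨(hC'E hz).1, fun h => (hC'E hz).2 (hXE₁ h)⟩)
    (fun z hz => ⟨(hD'E hz).1, fun h => (hD'E hz).2 (hYE₂ h)⟩)
    (Bic_sub (hCb _ _ hB₁) hXE₁) (Grd_sub hG₁ hr₁) (Bic_sub (hDb _ _ hB₂) hYE₂)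
    (Grd_sub hG₂ hr₂) ?_ d1 d2 k3
  rintro z ⟨hz1, hz2⟩
  rcases hFG ⟨hC' hz1, hD' hz2⟩ with (h | h) | h
  · exact Or.inl (Or.inl h)
  · exact Or.inr (Or.inl h)
  · have hzH : z ∈ H' := ⟨h, hz1, hz2⟩
    by_cases hzi : i ∈ Bc z
    · exact Or.inr (Or.inr ⟨hzH, fun hzj => hij' z hzH ⟨hzi, hzj⟩⟩)
    · exact Or.inl (Or.inr ⟨hzH, hzi⟩)

end BICS
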